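import Pool.Agent.W192.HK.Parts
import Pool.Agent.W311.CM.Gauss

/-! # Project HK (helper192), task HK-GAUSS (helper636): Gauss sums for ideals -/

set_option autoImplicit false

namespace Pool.Agent.W636.HK

open Pool.Agent.W192.HK
open Pool.Agent.W192.CM (ez nu)
open Pool.Agent.W311.CM (shift norm_sq ez_add ez_zero ez_one_iff)

lemma ez_R {R : Subring ℂ} {ω : ℂ} (h : QR R ω) (α : R) : ez ω (α : ℂ) = 1 := by
  obtain ⟨x, y, hxy⟩ := (h.mem α).1 α.2
  rw [ez_one_iff h.im]
  refine ⟨y, ?_⟩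
  rw [hxy]
  have := h.im.ne'
  simp
  field_simp

lemma mem_of_ez {R : Subring ℂ} {ω : ℂ} (hR : QR R ω) (z : ℂ)
    (h2 : ∀ x : R, ez ω (z * x) = 1) : z ∈ R := by
  obtain ⟨v, hv⟩ := (ez_one_iff hR.im _).1 (h2 1)
  have hωR : ω ∈ R := (hR.mem ω).2 ⟨0, 1, by simp⟩
  obtain ⟨n', hn'⟩ := (ez_one_iff hR.im _).1 (h2 ⟨ω, hωR⟩)
  obtain ⟨a', b', hab'⟩ := (hR.mem (ω * ω)).1 (R.mul_mem hωR hωR)
  have him := hR.im.ne'
  have e1 : z.im = v * ω.im := by
    rw [Subring.coe_one, mul_one] at hv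
    field_simp at hv
    linarith
  set u : ℝ := z.re - v * ω.re with hu
  have e2 : z = (u : ℂ) + v * ω := by
    apply Complex.ext
    · simp [hu]
    · simp [e1]
  have e3 : z * ω = ((v * a' : ℤ) : ℂ) + ((u + v * b' : ℝ) : ℂ) * ω := by
    rw [e2]
    push_cast
    linear_combination (v : ℂ) * hab'
  have e4 : u + v * b' = n' := by
    rw [← hn']
    change u + v * b' = (z * ω).im / ω.im
    have e6 : (z * ω).im = (u + v * b') * ω.im := by
      rw [e3]
      simp only [Complex.add_im, Complex.intCast_im, Complex.im_ofReal_mul, zero_add]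
    rw [e6]
    field_simp
  rw [hR.mem]
  refine ⟨n' - v * b', v, ?_⟩
  rw [e2]
  have : u = n' - v * b' := by linarith
  rw [this]
  push_cast
  ring

lemma sum_rp {R : Subring ℂ} {q b : Ideal R} [Fintype (R ⧸ q)] {U : Finset R} (hU : Rp q b U)
    (F : R ⧸ q → ℂ) : ∑ r ∈ U, F (Ideal.Quotient.mk q r) = ∑ a : R ⧸ q, F a := by
  refine Finset.sum_bij (fun r _ => Ideal.Quotient.mk q r) (fun _ _ => Finset.mem_univ _) ?_ ?_
    (fun _ _ => rfl)
  · intro r hr r' hr' h
    obtain ⟨x, -, hx⟩ := hU.uni r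
    rw [hx r ⟨hr, by simp⟩, hx r' ⟨hr', Ideal.Quotient.eq.1 h⟩]
  · intro a _
    obtain ⟨α, rfl⟩ := Ideal.Quotient.mk_surjective a
    obtain ⟨x, ⟨hx, hx'⟩, -⟩ := hU.uni α
    exact ⟨x, hx, (Ideal.Quotient.eq.2 hx').symm⟩

lemma unit_of_cop {R : Subring ℂ} {q : Ideal R} {α : R} (h : IsCoprime (sp α) q) :
    IsUnit (Ideal.Quotient.mk q α) := by
  obtain ⟨i, hi, j, hj, hij⟩ := Ideal.isCoprime_iff_exists.1 h
  obtain ⟨s, rfl⟩ := Ideal.mem_span_singleton'.1 hi
  refine IsUnit.of_mul_eq_one (Ideal.Quotient.mk q s) ?_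
  rw [← map_mul, ← map_one (Ideal.Quotient.mk q), Ideal.Quotient.eq]
  have : α * s - 1 = -j := by rw [← hij]; ring
  rw [this]
  exact q.neg_mem hj

lemma exists_cofactor {A : Type*} [CommRing A] [IsDedekindDomain A] (q t : Ideal A) (hq : q ≠ ⊥)
    (hqt : q ≤ t) (ht : t ≠ ⊤) : ∃ q', q = t * q' ∧ q < q' := by
  obtain ⟨q', hq'⟩ := Ideal.dvd_iff_le.2 hqt
  refine ⟨q', hq', lt_of_le_of_ne (hq'.trans_le Ideal.mul_le_right) ?_⟩
  intro h
  apply ht
  have h2 : t * q = 1 * q := by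
    rw [one_mul]
    conv_rhs => rw [hq']
    rw [← h]
  have h3 := mul_right_cancel₀ (b := q) (by simpa using hq) h2
  rw [h3, Ideal.one_eq_top]

lemma dvd_cancel {A : Type*} [CommRing A] [IsDedekindDomain A] (q c hh : Ideal A) (h0 : hh ≠ ⊥)
    (h4 : c * hh ≤ q * hh) : c ≤ q := by
  have h5 : q * hh ∣ c * hh := Ideal.dvd_iff_le.2 h4
  have h6 : q ∣ c := (mul_dvd_mul_iff_right (c := hh) (by simpa using h0)).1 h5
  exact Ideal.dvd_iff_le.1 h6

theorem h_gauss (h1 : H_BASIC) (h2 : H_FP) : H_GAUSS := by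
  intro R ω hR n q ψ hψ hqt s hh μ T hS
  have hded := hR.ded
  have hq0 : q ≠ ⊥ := hψ.ne
  obtain ⟨hfin, -⟩ := h1 R ω hR
  have hfq := hfin q hq0
  let _ : Fintype (R ⧸ q) := Fintype.ofFinite _
  obtain ⟨-, fmul, fzero, fnorm, fper⟩ := h2 R ω hR n q ψ hψ hqt
  have hμ0 : μ ≠ 0 := by
    rintro rfl
    have h3 := hS.prn
    rw [show (sp (0 : R) : Ideal R) = ⊥ by simp [sp]] at h3
    rcases Ideal.mul_eq_bot.1 h3 with h | h
    · exact hq0 h
    · exact hS.ne h
  have hμc : (μ : ℂ) ≠ 0 := fun h => hμ0 (Subtype.ext h)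
  -- the multiplicative character
  obtain ⟨cf, hcf⟩ : ∃ cf : R ⧸ q → ℂ, ∀ α : R, cf (Ideal.Quotient.mk q α) = fp n ψ α := by
    refine ⟨fun x => fp n ψ (Quotient.out x), fun α => ?_⟩
    apply fper
    rw [← Ideal.Quotient.eq]
    exact Quotient.out_eq' _
  have hf1 : fp n ψ (1 : R) = 1 := by
    have hc1 : IsCoprime (sp (1 : R)) q := by
      rw [show (sp (1 : R) : Ideal R) = 1 by simp [sp]]
      exact isCoprime_one_left
    have h3 := fmul 1 1
    rw [mul_one] at h3
    have h4 : fp n ψ (1 : R) ≠ 0 := fun h => (fzero 1).1 h hc1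
    exact (mul_left_cancel₀ h4 (by rw [mul_one]; exact h3)).symm
  let χ : MulChar (R ⧸ q) ℂ :=
    { toFun := cf
      map_one' := by rw [← map_one (Ideal.Quotient.mk q), hcf, hf1]
      map_mul' := by
        intro x y
        obtain ⟨α, rfl⟩ := Ideal.Quotient.mk_surjective x
        obtain ⟨β, rfl⟩ := Ideal.Quotient.mk_surjective y
        rw [← map_mul, hcf, hcf, hcf, fmul]
      map_nonunit' := by
        intro x hx
        obtain ⟨α, rfl⟩ := Ideal.Quotient.mk_surjective x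
        rw [hcf, fzero]
        exact fun h => hx (unit_of_cop h) }
  have hχ : ∀ α : R, χ (Ideal.Quotient.mk q α) = fp n ψ α := hcf
  -- the additive character
  have hqh : q ⊓ hh = sp μ := by
    rw [← hS.prn]
    exact (Ideal.mul_eq_inf_of_isCoprime hS.cop.symm).symm
  have hwd : ∀ x y : R, x ∈ hh → y ∈ hh → x - y ∈ q → ez ω ((x : ℂ) / μ) = ez ω ((y : ℂ) / μ) := by
    intro x y hx hy hxy
    have h3 : x - y ∈ sp μ := by
      rw [← hqh]
      exact ⟨hxy, hh.sub_mem hx hy⟩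
    obtain ⟨t, ht⟩ := Ideal.mem_span_singleton.1 h3
    have h4 : (x : ℂ) = y + μ * t := by
      have := congrArg (fun x : R => (x : ℂ)) ht
      simp only [AddSubgroupClass.coe_sub, Subring.coe_mul] at this
      linear_combination this
    have h5 : (x : ℂ) / μ = (y : ℂ) / μ + (t : ℂ) := by
      rw [h4]
      field_simp
    rw [h5, ez_add, ez_R hR, mul_one]
  have hrep : ∀ a : R ⧸ q, ∃ x : R, x ∈ hh ∧ Ideal.Quotient.mk q x = a := by
    intro a
    obtain ⟨α, rfl⟩ := Ideal.Quotient.mk_surjective a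
    obtain ⟨x, ⟨hx, hx'⟩, -⟩ := hS.rp.uni α
    exact ⟨x, hS.rp.mem x hx, (Ideal.Quotient.eq.2 hx').symm⟩
  choose rep hrep1 hrep2 using hrep
  have he : ∀ x ∈ hh, ez ω ((rep (Ideal.Quotient.mk q x) : ℂ) / μ) = ez ω ((x : ℂ) / μ) := by
    intro x hx
    exact hwd _ _ (hrep1 _) hx (Ideal.Quotient.eq.1 (hrep2 _))
  let φ : AddChar (R ⧸ q) ℂ :=
    { toFun := fun a => ez ω ((rep a : ℂ) / μ)
      map_zero_eq_one' := by
        have := he 0 hh.zero_mem
        rw [map_zero] at this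
        rw [this]
        simp [ez_zero]
      map_add_eq_mul' := by
        intro a b
        have h3 := he (rep a + rep b) (hh.add_mem (hrep1 a) (hrep1 b))
        rw [map_add, hrep2, hrep2] at h3
        rw [h3, ← ez_add, Subring.coe_add, add_div] }
  have hφ : ∀ x ∈ hh, φ (Ideal.Quotient.mk q x) = ez ω ((x : ℂ) / μ) := he
  -- primitivity
  have hprim : φ.IsPrimitive := by
    intro a ha h3
    apply ha
    obtain ⟨β, rfl⟩ := Ideal.Quotient.mk_surjective a
    rw [Ideal.Quotient.eq_zero_iff_mem]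
    have h4 : sp β * hh ≤ q * hh := by
      rw [hS.prn, Ideal.span_singleton_mul_le_iff]
      intro x hx
      have h5 : ((β : ℂ) * x / μ) ∈ R := by
        apply mem_of_ez hR
        intro r
        have h6 := DFunLike.congr_fun h3 (Ideal.Quotient.mk q (x * r))
        rw [AddChar.mulShift_apply, ← map_mul, hφ _ (hh.mul_mem_left _ (hh.mul_mem_right _ hx)),
          AddChar.one_apply, Subring.coe_mul, Subring.coe_mul] at h6
        rw [← h6]
        congr 1
        ring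
      rw [Ideal.mem_span_singleton]
      refine ⟨⟨_, h5⟩, ?_⟩
      apply Subtype.ext
      rw [Subring.coe_mul, Subring.coe_mul]
      change (β : ℂ) * x = μ * ((β : ℂ) * x / μ)
      field_simp
    exact dvd_cancel q (sp β) hh hS.ne h4 (Ideal.mem_span_singleton_self β)
  -- vanishing
  have hzero : ∀ b : R ⧸ q, ¬ IsUnit b → gaussSum χ (AddChar.mulShift φ b) = 0 := by
    intro b hb
    obtain ⟨β, rfl⟩ := Ideal.Quotient.mk_surjective b
    have ht1 : sp β ⊔ q ≠ ⊤ := by
      intro h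
      exact hb (unit_of_cop (Ideal.isCoprime_iff_sup_eq.2 h))
    obtain ⟨q', hq', hlt⟩ := exists_cofactor q (sp β ⊔ q) hq0 le_sup_right ht1
    obtain ⟨α, hα0, hα1, hα2, hα3⟩ := hψ.prim q' hlt
    have hαu := unit_of_cop hα2
    obtain ⟨w, hw⟩ := hαu
    have h3 := gaussSum_mulShift χ (AddChar.mulShift φ (Ideal.Quotient.mk q β)) w
    have h4 : AddChar.mulShift (AddChar.mulShift φ (Ideal.Quotient.mk q β)) w =
        AddChar.mulShift φ (Ideal.Quotient.mk q β) := by
      ext x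
      rw [AddChar.mulShift_apply, AddChar.mulShift_apply, AddChar.mulShift_apply, hw, ← mul_assoc]
      congr 2
      rw [← map_mul, Ideal.Quotient.eq]
      have h5 : β * α - β = β * (α - 1) := by ring
      rw [h5]
      refine hq'.symm.le ?_
      exact Ideal.mul_mem_mul (Ideal.mem_sup_left (Ideal.mem_span_singleton_self β)) hα1
    rw [h4] at h3
    have h5 : χ (w : R ⧸ q) ≠ 1 := by
      rw [hw, hχ]
      unfold fp
      intro h
      apply hα3
      have hα0' : (α : ℂ) ^ n ≠ 0 := pow_ne_zero _ (fun h => hα0 (Subtype.ext h))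
      rwa [div_eq_one_iff_eq hα0'] at h
    have h6 : (χ (w : R ⧸ q) - 1) *
        gaussSum χ (AddChar.mulShift φ (Ideal.Quotient.mk q β)) = 0 := by
      linear_combination h3
    exact (mul_eq_zero.1 h6).resolve_left (sub_ne_zero.2 h5)
  have hgs : gT ω n ψ μ T = gaussSum χ φ := by
    unfold gT gaussSum
    rw [← sum_rp hS.rp (fun a => χ a * φ a)]
    refine Finset.sum_congr rfl fun x hx => ?_
    rw [hχ, hφ x (hS.rp.mem x hx)]
  constructor
  · rw [hgs]
    have h1 := norm_sq χ φ hprim hzero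
    have h3 : star (gaussSum χ φ) * gaussSum χ φ = ((‖gaussSum χ φ‖ ^ 2 : ℝ) : ℂ) := by
      rw [← starRingEnd_apply, mul_comm, Complex.mul_conj, Complex.normSq_eq_norm_sq]
    rw [h3] at h1
    unfold nm
    rw [Nat.card_eq_fintype_card]
    exact_mod_cast h1
  · intro b g hbg U hU γ hγ
    have h1 := shift χ φ hzero (Ideal.Quotient.mk q γ)
    rw [hgs]
    have h2 : (starRingEnd ℂ) (fp n ψ γ) = χ⁻¹ (Ideal.Quotient.mk q γ) := by
      rw [← hχ, starRingEnd_apply, MulChar.star_apply']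
    rw [h2, ← h1]
    unfold gaussSum
    rw [← sum_rp hU (fun a => χ a * AddChar.mulShift φ (Ideal.Quotient.mk q γ) a)]
    refine Finset.sum_congr rfl fun x hx => ?_
    have h3 : x * γ ∈ hh := by
      rw [← hbg]
      exact Ideal.mul_mem_mul (hU.mem x hx) hγ
    rw [AddChar.mulShift_apply, hχ, ← map_mul, mul_comm γ x, hφ _ h3, Subring.coe_mul]

end Pool.Agent.W636.HK
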